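import Mathlib

set_option autoImplicit false
set_option synthInstance.maxSize 4000

namespace Pool.Agent.Results.MP_6e3918_co.SubCut

/-- oriented matroid given by its signed circuits (circuit axioms with weak elimination) -/
structure OM (E : Type) where
  C : Set (E → SignType)
  ne_zero : ∀ X ∈ C, X ≠ 0
  neg_mem : ∀ X ∈ C, -X ∈ C
  incomp : ∀ X ∈ C, ∀ Y ∈ C, (∀ e, X e ≠ 0 → Y e ≠ 0) → X = Y ∨ X = -Y
  elim : ∀ X ∈ C, ∀ Y ∈ C, X ≠ -Y → ∀ e, X e = 1 → Y e = -1 →
    ∃ Z ∈ C, Z e = 0 ∧ ∀ f, (Z f = 1 → X f = 1 ∨ Y f = 1) ∧ (Z f = -1 → X f = -1 ∨ Y f = -1)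

variable {E : Type}

/-- `e` lies in the closure of `F` in the underlying matroid -/
def Spans (O : OM E) (F : Set E) (e : E) : Prop :=
  e ∈ F ∨ ∃ X ∈ O.C, X e ≠ 0 ∧ ∀ f, X f ≠ 0 → f = e ∨ f ∈ F

def Flat (O : OM E) (F : Set E) : Prop := ∀ e, Spans O F e → e ∈ F

/-- independent: contains the support of no circuit -/
def Indep (O : OM E) (I : Finset E) : Prop := ∀ X ∈ O.C, ∃ f, X f ≠ 0 ∧ f ∉ I

noncomputable def rank (O : OM E) (F : Set E) : ℕ :=
  sSup {n | ∃ I : Finset E, ↑I ⊆ F ∧ Indep O I ∧ I.card = n}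

def ModularCut (O : OM E) (M : Set (Set E)) : Prop :=
  (∀ F ∈ M, Flat O F) ∧ (∀ F ∈ M, ∀ G, Flat O G → F ⊆ G → G ∈ M) ∧
    ∀ F ∈ M, ∀ G ∈ M, rank O F + rank O G = rank O (F ∪ G) + rank O (F ∩ G) → F ∩ G ∈ M

/-- `O'` is a single-element extension of `O` by the new element `none` -/
def IsExt (O : OM E) (O' : OM (Option E)) : Prop :=
  ∀ X : E → SignType, X ∈ O.C ↔ (fun o : Option E => o.elim 0 X) ∈ O'.C

/-- `O'` extends `O` and the flats of `O` spanning the new element are those of `M` -/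
def Corr (O : OM E) (O' : OM (Option E)) (M : Set (Set E)) : Prop :=
  IsExt O O' ∧ M = {F | Flat O F ∧ Spans O' (some '' F) none}

/-- no loops and no parallel elements: every circuit has at least three elements -/
def Simple (O : OM E) : Prop := ∀ X ∈ O.C, ∀ e f, ∃ g, g ≠ e ∧ g ≠ f ∧ X g ≠ 0

def c0 : Fin 7 → Fin 8 → SignType :=
  ![![1, 0, -1, 0, 0, 1, 0, 0], ![1, 0, 0, 1, -1, 0, 0, 0], ![0, 1, 1, 0, -1, 0, 0, 0],
   ![0, 1, 0, -1, 0, 1, 0, 0], ![1, -1, -1, 1, 0, 0, 0, 0], ![1, 1, 0, 0, -1, 1, 0, 0],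
   ![0, 0, 1, 1, -1, -1, 0, 0]]

def L (i : Fin 7 × Bool) : Fin 8 → SignType := if i.2 then c0 i.1 else -c0 i.1

def P : Option (Fin 8) → SignType := fun o => o.elim (-1) ![0, 0, 0, 0, 0, 0, 1, 1]

def L' : Bool ⊕ (Fin 7 × Bool) → Option (Fin 8) → SignType
  | .inl b => if b then P else -P
  | .inr i => fun o => o.elim 0 (L i)

def O1 : OM (Fin 8) where
  C := Set.range L
  ne_zero := by simp only [Set.forall_mem_range]; decide +kernel
  neg_mem := by simp only [Set.forall_mem_range]; simp only [Set.mem_range]; decide +kernel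
  incomp := by simp only [Set.forall_mem_range]; decide +kernel
  elim := by simp only [Set.forall_mem_range, Set.exists_range_iff]; decide +kernel

def O2 : OM (Option (Fin 8)) where
  C := Set.range L'
  ne_zero := by simp only [Set.forall_mem_range]; decide +kernel
  neg_mem := by simp only [Set.forall_mem_range]; simp only [Set.mem_range]; decide +kernel
  incomp := by simp only [Set.forall_mem_range]; decide +kernel
  elim := by simp only [Set.forall_mem_range, Set.exists_range_iff]; decide +kernel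

def H (i : Fin 3) : Finset (Fin 8) := ![{0, 1, 6, 7}, {2, 3, 6, 7}, {4, 5, 6, 7}] i

lemma flat_iff (F : Finset (Fin 8)) : Flat O1 F ↔
    ∀ e i, L i e ≠ 0 → (∀ f, L i f ≠ 0 → f = e ∨ f ∈ F) → e ∈ F := by
  constructor
  · intro h e i h1 h2
    exact h e (Or.inr ⟨_, ⟨i, rfl⟩, h1, h2⟩)
  · rintro h e (h1 | ⟨X, ⟨i, rfl⟩, h1, h2⟩)
    · exact h1
    · exact h e i h1 h2

lemma bdd (O : OM (Fin 8)) (F : Set (Fin 8)) :
    BddAbove {n | ∃ I : Finset (Fin 8), ↑I ⊆ F ∧ Indep O I ∧ I.card = n} :=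
  ⟨8, by rintro n ⟨I, -, -, rfl⟩; simpa using I.card_le_univ⟩

lemma rank_H (i : Fin 3) : 4 ≤ rank O1 (H i) := by
  refine le_csSup (bdd _ _) ⟨H i, subset_rfl, ?_, ?_⟩
  · revert i; unfold Indep; simp only [O1, Set.forall_mem_range]; decide +kernel
  · revert i; decide

lemma rank_le (F : Set (Fin 8)) : rank O1 F ≤ 5 := by
  refine csSup_le' ?_
  rintro n ⟨I, -, h, rfl⟩
  revert I; unfold Indep; simp only [O1, Set.forall_mem_range]; decide +kernel

lemma rank_card (F : Finset (Fin 8)) : rank O1 F ≤ F.card := by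
  refine csSup_le' ?_
  rintro n ⟨I, h, -, rfl⟩
  exact Finset.card_le_card (Finset.coe_subset.mp h)

lemma ext12 : IsExt O1 O2 := by
  intro X
  constructor
  · rintro ⟨i, rfl⟩
    exact ⟨.inr i, rfl⟩
  · rintro ⟨b | i, h⟩
    · have : ∀ b, L' (.inl b) none ≠ 0 := by decide
      exact absurd (congrFun h none) (this b)
    · exact ⟨i, funext fun e => congrFun h (some e)⟩

lemma sub_flat : ∀ i, ∀ F : Finset (Fin 8), F ⊆ H i → Flat O1 F := by
  simp only [flat_iff]; decide +kernel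

lemma sup_flat : ∀ i, ∀ F : Finset (Fin 8), H i ⊆ F → Flat O1 F → F = H i ∨ F = Finset.univ := by
  simp only [flat_iff]; decide +kernel

def M2 : Set (Set (Fin 8)) := {F | F = Set.univ ∨ ∃ i, F = H i}

lemma cut2 : ModularCut O1 M2 := by
  refine ⟨?_, ?_, ?_⟩
  · rintro F (rfl | ⟨i, rfl⟩)
    · exact fun e _ => Set.mem_univ e
    · exact sub_flat i _ subset_rfl
  · rintro F (rfl | ⟨i, rfl⟩) G hG h
    · exact Or.inl (Set.univ_subset_iff.mp h)
    · lift G to Finset (Fin 8) using G.toFinite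
      rcases sup_flat i G (Finset.coe_subset.mp h) hG with rfl | rfl
      · exact Or.inr ⟨i, rfl⟩
      · exact Or.inl Finset.coe_univ
  · rintro F (rfl | ⟨i, rfl⟩) G hG h
    · rwa [Set.univ_inter]
    rcases hG with rfl | ⟨j, rfl⟩
    · rw [Set.inter_univ]; exact Or.inr ⟨i, rfl⟩
    by_cases hij : i = j
    · rw [hij, Set.inter_self]; exact Or.inr ⟨j, rfl⟩
    · exfalso
      have a := rank_H i
      have b := rank_H j
      have c := rank_le (↑(H i) ∪ ↑(H j))
      have d := rank_card (H i ∩ H j)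
      have e : ∀ i j, i ≠ j → (H i ∩ H j).card = 2 := by decide
      rw [Finset.coe_inter, e i j hij] at d
      omega

lemma get_circ (O : OM (Option (Fin 8))) (h : Corr O1 O M2) (i : Fin 3) :
    ∃ X ∈ O.C, X none = 1 ∧ ∀ f, X (some f) ≠ 0 ↔ f ∈ H i := by
  have h1 : (H i : Set (Fin 8)) ∈ M2 := Or.inr ⟨i, rfl⟩
  rw [h.2] at h1
  rcases h1.2 with h2 | ⟨X, hX, h2, h3⟩
  · simp at h2
  have key : ∀ f, X (some f) ≠ 0 ↔ f ∈ H i := by
    let F : Finset (Fin 8) := Finset.univ.filter fun f => X (some f) ≠ 0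
    have sub : F ⊆ H i := by
      intro f hf
      have := h3 (some f) (Finset.mem_filter.mp hf).2
      simpa using this
    have m : (F : Set (Fin 8)) ∈ M2 := by
      rw [h.2]
      refine ⟨sub_flat i F sub, Or.inr ⟨X, hX, h2, fun f hf => ?_⟩⟩
      cases f with
      | none => exact Or.inl rfl
      | some f => exact Or.inr ⟨f, by simpa [F] using hf, rfl⟩
    have e : F = H i := by
      have e1 : ∀ i j, H j ⊆ H i → H j = H i := by decide
      have e2 : ∀ i, ¬ Finset.univ ⊆ H i := by decide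
      rcases m with m | ⟨j, m⟩
      · rw [← Finset.coe_univ, Finset.coe_inj] at m
        exact absurd (m ▸ sub) (e2 i)
      · rw [Finset.coe_inj] at m
        rw [m] at sub ⊢
        exact e1 i j sub
    intro f
    rw [← e]; simp [F]
  rcases hx : X none with _ | _ | _
  · exact absurd hx h2
  · exact ⟨-X, O.neg_mem X hX, by rw [Pi.neg_apply, hx]; rfl, fun f => by simpa using key f⟩
  · exact ⟨X, hX, hx, key⟩

lemma elim_pair (O : OM (Option (Fin 8))) (h : IsExt O1 O) (X Y : Option (Fin 8) → SignType)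
    (hX : X ∈ O.C) (hY : Y ∈ O.C) (x : X none = 1) (y : Y none = 1) (hne : X ≠ Y) :
    ∃ Z ∈ Set.range L, ∀ f, (Z f = 1 → X (some f) = 1 ∨ Y (some f) = -1) ∧
      (Z f = -1 → X (some f) = -1 ∨ Y (some f) = 1) := by
  obtain ⟨Z, hZ, z0, z1⟩ := O.elim X hX (-Y) (O.neg_mem Y hY) (by simpa using hne) none x
    (by rw [Pi.neg_apply, y])
  refine ⟨fun f => Z (some f), (h _).mpr ?_, fun f => ?_⟩
  · have : (fun o : Option (Fin 8) => o.elim 0 fun f => Z (some f)) = Z := by
      funext o; cases o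
      · exact z0.symm
      · rfl
    rwa [this]
  · have := z1 (some f)
    simp only [Pi.neg_apply, neg_eq_iff_eq_neg, neg_neg] at this
    exact this

lemma no_ext (O : OM (Option (Fin 8))) : ¬ Corr O1 O M2 := by
  intro h
  obtain ⟨X, hX, x, x'⟩ := get_circ O h 0
  obtain ⟨Y, hY, y, y'⟩ := get_circ O h 1
  obtain ⟨W, hW, w, w'⟩ := get_circ O h 2
  have z : ∀ (X : Option (Fin 8) → SignType) (i : Fin 3), (∀ f, X (some f) ≠ 0 ↔ f ∈ H i) →
      ∀ f, f ∉ H i → X (some f) = 0 := fun X i h f hf => by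
    by_contra hc; exact hf ((h f).mp hc)
  have x2 := z X 0 x' 2 (by decide)
  have x3 := z X 0 x' 3 (by decide)
  have x4 := z X 0 x' 4 (by decide)
  have x5 := z X 0 x' 5 (by decide)
  have y0 := z Y 1 y' 0 (by decide)
  have y1 := z Y 1 y' 1 (by decide)
  have y4 := z Y 1 y' 4 (by decide)
  have y5 := z Y 1 y' 5 (by decide)
  have w0 := z W 2 w' 0 (by decide)
  have w1 := z W 2 w' 1 (by decide)
  have w2 := z W 2 w' 2 (by decide)
  have w3 := z W 2 w' 3 (by decide)
  obtain ⟨_, ⟨Z1, rfl⟩, z1⟩ := elim_pair O h.1 X Y hX hY x y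
    (fun e => (x' 0).mpr (by decide) (e ▸ y0))
  obtain ⟨_, ⟨Z2, rfl⟩, z2⟩ := elim_pair O h.1 X W hX hW x w
    (fun e => (x' 0).mpr (by decide) (e ▸ w0))
  obtain ⟨_, ⟨Z3, rfl⟩, z3⟩ := elim_pair O h.1 Y W hY hW y w
    (fun e => (y' 2).mpr (by decide) (e ▸ w2))
  have k1 : X (some 0) * X (some 1) * (Y (some 2) * Y (some 3)) = 1 := by
    have a0 := z1 0; have a1 := z1 1; have a2 := z1 2
    have a3 := z1 3; have a4 := z1 4; have a5 := z1 5
    rw [y0] at a0; rw [y1] at a1; rw [x2] at a2; rw [x3] at a3; rw [x4, y4] at a4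
    rw [x5, y5] at a5
    revert a0 a1 a2 a3 a4 a5
    generalize X (some 0) = a, X (some 1) = b, Y (some 2) = c, Y (some 3) = d
    clear z1
    revert a b c d Z1
    decide +kernel
  have k2 : X (some 0) * X (some 1) * (W (some 4) * W (some 5)) = -1 := by
    have a0 := z2 0; have a1 := z2 1; have a2 := z2 2
    have a3 := z2 3; have a4 := z2 4; have a5 := z2 5
    rw [w0] at a0; rw [w1] at a1; rw [x2, w2] at a2; rw [x3, w3] at a3; rw [x4] at a4
    rw [x5] at a5
    revert a0 a1 a2 a3 a4 a5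
    generalize X (some 0) = a, X (some 1) = b, W (some 4) = c, W (some 5) = d
    clear z2
    revert a b c d Z2
    decide +kernel
  have k3 : Y (some 2) * Y (some 3) * (W (some 4) * W (some 5)) = 1 := by
    have a0 := z3 0; have a1 := z3 1; have a2 := z3 2
    have a3 := z3 3; have a4 := z3 4; have a5 := z3 5
    rw [y0, w0] at a0; rw [y1, w1] at a1; rw [w2] at a2; rw [w3] at a3; rw [y4] at a4
    rw [y5] at a5
    revert a0 a1 a2 a3 a4 a5
    generalize Y (some 2) = a, Y (some 3) = b, W (some 4) = c, W (some 5) = d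
    clear z3
    revert a b c d Z3
    decide +kernel
  revert k1 k2 k3
  generalize X (some 0) * X (some 1) = a, Y (some 2) * Y (some 3) = b, W (some 4) * W (some 5) = c
  revert a b c
  decide

theorem result : ∃ (O : OM (Fin 8)) (O' : OM (Option (Fin 8))) (M M' : Set (Set (Fin 8))),
    Simple O' ∧ ModularCut O M ∧ Corr O O' M ∧ ModularCut O M' ∧ M' ⊆ M ∧
      ∀ O'' : OM (Option (Fin 8)), ¬ Corr O O'' M' := by
  have sp : ∀ F : Set (Fin 8), Spans O2 (some '' F) none ↔ 6 ∈ F ∧ 7 ∈ F := by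
    intro F
    constructor
    · rintro (h | ⟨X, hX, h1, h2⟩)
      · simp at h
      · have : ∀ i, L' i none ≠ 0 → L' i (some 6) ≠ 0 ∧ L' i (some 7) ≠ 0 := by decide +kernel
        obtain ⟨i, rfl⟩ := hX
        obtain ⟨a, b⟩ := this i h1
        exact ⟨by simpa using h2 _ a, by simpa using h2 _ b⟩
    · rintro ⟨a, b⟩
      refine Or.inr ⟨P, ⟨.inl true, rfl⟩, by decide, fun f hf => ?_⟩
      have : ∀ f, P f ≠ 0 → f = none ∨ f = some 6 ∨ f = some 7 := by decide
      rcases this f hf with rfl | rfl | rfl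
      · exact Or.inl rfl
      · exact Or.inr ⟨6, a, rfl⟩
      · exact Or.inr ⟨7, b, rfl⟩
  refine ⟨O1, O2, _, M2, ?_, ⟨fun F hF => hF.1, ?_, ?_⟩, ⟨ext12, rfl⟩, cut2, ?_, no_ext⟩
  · unfold Simple; simp only [O2, Set.forall_mem_range]; decide +kernel
  · intro F hF G hG h
    have := (sp F).mp hF.2
    exact ⟨hG, (sp G).mpr ⟨h this.1, h this.2⟩⟩
  · intro F hF G hG _
    have a := (sp F).mp hF.2
    have b := (sp G).mp hG.2
    refine ⟨?_, (sp _).mpr ⟨⟨a.1, b.1⟩, ⟨a.2, b.2⟩⟩⟩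
    rintro e (h | ⟨X, hX, h1, h2⟩)
    · exact h
    · exact ⟨hF.1 e (Or.inr ⟨X, hX, h1, fun f hf => (h2 f hf).imp id And.left⟩),
        hG.1 e (Or.inr ⟨X, hX, h1, fun f hf => (h2 f hf).imp id And.right⟩)⟩
  · intro F hF
    refine ⟨cut2.1 F hF, (sp F).mpr ?_⟩
    rcases hF with rfl | ⟨i, rfl⟩
    · exact ⟨trivial, trivial⟩
    · have : ∀ i, 6 ∈ H i ∧ 7 ∈ H i := by decide
      exact this i

end Pool.Agent.Results.MP_6e3918_co.SubCut
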